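import Pool.Agent.N831.GA.Stm

/-!
# Project GA, leaf D2 (helper454): a solution of `F = G` near a zero of `F`
-/

set_option autoImplicit false

namespace Pool.Agent.N454.GA.D2

open Complex Metric Set Filter Topology
open Pool.Agent.N831.GA

theorem t (h2 : S_TR2) : S_D2 := by
  intro F G c r M hr hc hF hFc hpos hlow hG hM hMr
  have hr' : 0 < 3 * r / 4 := by positivity
  have hsub : closedBall c (3 * r / 4) ⊆ ball c r := closedBall_subset_ball (by linarith)
  obtain ⟨_, P, hP0, h1, h3, _⟩ := h2 F c (3 * r / 4) hr' hc (hF.mono hsub)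
    (fun z hz => hpos z (hsub hz))
  -- lower bound for P
  have hPr : 12 / 73 ≤ P * r := by
    have hy := hlow (3 * r / 8) (by positivity) (by linarith)
    have hnorm : ‖(c + ((3 * r / 8 : ℝ) : ℂ)) - c‖ = 3 * r / 8 := by
      rw [add_sub_cancel_left, Complex.norm_real, Real.norm_eq_abs, abs_of_pos (by positivity)]
    have hz := h1 (c + ((3 * r / 8 : ℝ) : ℂ)) (by
      rw [mem_ball, dist_eq_norm, hnorm]; linarith)
    rw [hnorm, hFc, sub_zero] at hz
    have hre := Complex.re_le_norm (F (c + ((3 * r / 8 : ℝ) : ℂ)))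
    set B := ‖F (c + ((3 * r / 8 : ℝ) : ℂ))‖ with hB
    have e1 : (3 * r / 8) / ((3 * r / 8) ^ 2 + r ^ 2) = (24 / 73) / r := by
      field_simp; ring
    rw [e1] at hy
    have hB2 : 24 / 73 / r ≤ B := hy.trans hre
    rw [div_le_iff₀ hr] at hB2
    have hz2 : B * (3 * r / 8) ^ 2 ≤ 2 * P * (3 * r / 8) ^ 2 := by nlinarith
    have hB3 : B ≤ 2 * P := le_of_mul_le_mul_right hz2 (by positivity)
    nlinarith
  have hMr' : M ≤ 1 / (100 * r) := by
    rw [le_div_iff₀ (by positivity)]; linarith
  set ρ := 3 * r / 8 with hρ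
  have hρ0 : 0 < ρ := by positivity
  have hsub2 : closedBall c ρ ⊆ ball c r := closedBall_subset_ball (by rw [hρ]; linarith)
  -- the difference on the sphere
  have hsph : ∀ z, ‖z - c‖ = ρ → 11 / (1000 * r) ≤ ‖F z - G z‖ := by
    intro z hz
    have hz1 := h3 z (by rw [hz, hρ]; ring)
    rw [hFc, sub_zero] at hz1
    have hz2 : z ∈ ball c r := hsub2 (by rw [mem_closedBall, dist_eq_norm, hz])
    have hz3 := hM z hz2
    have hz4 : ‖F z‖ - ‖G z‖ ≤ ‖F z - G z‖ := norm_sub_norm_le _ _
    rw [div_le_iff₀ (by positivity)]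
    have h5 : ‖F z - G z‖ * r ≥ ‖F z‖ * r - ‖G z‖ * r := by nlinarith
    have h6 : ‖G z‖ * r ≤ M * r := mul_le_mul_of_nonneg_right hz3 hr.le
    have h7 : 2 * (P * r) ≤ 15 * (‖F z‖ * r) := by nlinarith
    nlinarith
  by_contra hno
  push Not at hno
  have hne : ∀ z ∈ closedBall c ρ, F z - G z ≠ 0 := by
    intro z hz h0
    rw [mem_closedBall, dist_eq_norm] at hz
    rcases hz.lt_or_eq with hlt | heq
    · refine hno z ?_ (sub_eq_zero.mp h0)
      rw [mem_ball, dist_eq_norm]
      rw [hρ] at hlt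
      linarith
    · have := hsph z heq
      rw [h0, norm_zero] at this
      have h8 : 0 < 11 / (1000 * r) := by positivity
      linarith
  have hdiff : DifferentiableOn ℂ (fun z => F z - G z) (closedBall c ρ) :=
    (hF.differentiableOn.mono hsub2).sub (hG.mono hsub2)
  have hcl : closure (ball c ρ) = closedBall c ρ := closure_ball c hρ0.ne'
  have hd : DiffContOnCl ℂ (fun z => F z - G z) (ball c ρ) := by
    apply DifferentiableOn.diffContOnCl
    rw [hcl]; exact hdiff
  have hinv : DiffContOnCl ℂ (fun z => F z - G z)⁻¹ (ball c ρ) := by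
    apply hd.inv
    rw [hcl]; exact hne
  have hb := Complex.norm_le_of_forall_mem_frontier_norm_le (C := 1000 * r / 11)
    Metric.isBounded_ball hinv (fun z hz => by
      rw [frontier_ball c hρ0.ne', mem_sphere, dist_eq_norm] at hz
      rw [Pi.inv_apply, norm_inv]
      have := hsph z hz
      rw [show 1000 * r / 11 = (11 / (1000 * r))⁻¹ by rw [inv_div]]
      exact inv_anti₀ (by positivity) this) (subset_closure (mem_ball_self hρ0))
  rw [Pi.inv_apply, norm_inv, hFc, zero_sub, norm_neg] at hb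
  have hGc : ‖G c‖ ≤ M := hM c (mem_ball_self hr)
  have hGpos : 0 < ‖G c‖ := by
    have := hne c (mem_closedBall_self hρ0.le)
    rw [hFc, zero_sub, neg_ne_zero] at this
    exact norm_pos_iff.mpr this
  rw [inv_le_comm₀ hGpos (by positivity), inv_div] at hb
  have h9 : 11 / (1000 * r) ≤ 1 / (100 * r) := hb.trans (hGc.trans hMr')
  rw [div_le_div_iff₀ (by positivity) (by positivity)] at h9
  nlinarith

end Pool.Agent.N454.GA.D2
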